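import Pool.Agent.Helper68.SK.Goals
import Pool.Agent.Helper58.C2.Alg

/-!
Packet SK-STARAFF (project SK, MP_2b0227_gt): the star kernel is affine, its slots.
-/

set_option autoImplicit false

namespace Pool.Agent.Helper56.SK

open Finset LaurentPolynomial
open _root_.Pool.Agent.Helper52.C2 _root_.Pool.Agent.Helper58.C2 _root_.Pool.Agent.Helper68.SK

/-- the closure of a stacked pair -/
noncomputable def cA {J : Type} (a : J × Bool → Tg) (j : J) : ℝ[T;T⁻¹] :=
  ((a (j, false)).mul (a (j, true))).F

/-- the product of the closures -/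
noncomputable def cB {J : Type} (a : J × Bool → Tg) (j : J) : ℝ[T;T⁻¹] :=
  (a (j, false)).F * (a (j, true)).F

/-- the coefficient of `cB a i` -/
noncomputable def cY {r : ℕ} (a : Fin r × Bool → Tg) (i : Fin r) : ℝ[T;T⁻¹] :=
  ∏ j ∈ univ.erase i, cA a j

/-- the coefficient of `cA a i` -/
noncomputable def cX {r : ℕ} (a : Fin r × Bool → Tg) (i : Fin r) : ℝ[T;T⁻¹] :=
  ∑ l ∈ univ.erase i, cB a l * ∏ j ∈ (univ.erase l).erase i, cA a j

theorem starK_split {r : ℕ} (a : Fin r × Bool → Tg) (i : Fin r) :
    starK r a = cY a i * cB a i + cX a i * cA a i := by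
  have h1 : starK r a = ∑ l, cB a l * ∏ j ∈ univ.erase l, cA a j := rfl
  rw [h1, ← Finset.add_sum_erase _ _ (Finset.mem_univ i), cY, cX, mul_comm (cB a i), Finset.sum_mul]
  congr 1
  refine Finset.sum_congr rfl fun l hl => ?_
  have h2 : i ∈ univ.erase l := by
    rw [Finset.mem_erase] at hl ⊢
    exact ⟨hl.1.symm, Finset.mem_univ _⟩
  rw [← Finset.mul_prod_erase _ _ h2]
  ring

theorem cA_up {r : ℕ} (a : Fin r × Bool → Tg) (i : Fin r) (s : Bool) (S : Tg) (j : Fin r)
    (h : j ≠ i) : cA (Function.update a (i, s) S) j = cA a j := by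
  have h1 : ∀ b : Bool, (Function.update a (i, s) S) (j, b) = a (j, b) := fun b =>
    Function.update_of_ne (fun h2 => h (congrArg Prod.fst h2)) _ _
  rw [cA, cA, h1, h1]

theorem cB_up {r : ℕ} (a : Fin r × Bool → Tg) (i : Fin r) (s : Bool) (S : Tg) (j : Fin r)
    (h : j ≠ i) : cB (Function.update a (i, s) S) j = cB a j := by
  have h1 : ∀ b : Bool, (Function.update a (i, s) S) (j, b) = a (j, b) := fun b =>
    Function.update_of_ne (fun h2 => h (congrArg Prod.fst h2)) _ _
  rw [cB, cB, h1, h1]

theorem cY_up {r : ℕ} (a : Fin r × Bool → Tg) (i : Fin r) (s : Bool) (S : Tg) :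
    cY (Function.update a (i, s) S) i = cY a i :=
  Finset.prod_congr rfl fun j hj => cA_up a i s S j (Finset.ne_of_mem_erase hj)

theorem cX_up {r : ℕ} (a : Fin r × Bool → Tg) (i : Fin r) (s : Bool) (S : Tg) :
    cX (Function.update a (i, s) S) i = cX a i := by
  refine Finset.sum_congr rfl fun l hl => ?_
  rw [cB_up a i s S l (Finset.ne_of_mem_erase hl)]
  congr 1
  exact Finset.prod_congr rfl fun j hj => cA_up a i s S j (Finset.ne_of_mem_erase hj)

theorem starK_false {r : ℕ} (a : Fin r × Bool → Tg) (i : Fin r) (S : Tg) :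
    starK r (Function.update a (i, false) S) =
      cY a i * (S.F * (a (i, true)).F) +
        cX a i * (S.R * (a (i, true)).F + S.F * (a (i, true)).L) := by
  rw [starK_split _ i, cY_up, cX_up]
  have h1 : (Function.update a (i, false) S) (i, false) = S := Function.update_self _ _ _
  have h2 : (Function.update a (i, false) S) (i, true) = a (i, true) :=
    Function.update_of_ne (by simp) _ _
  rw [cA, cB, h1, h2, mulF]

theorem starK_true {r : ℕ} (a : Fin r × Bool → Tg) (i : Fin r) (S : Tg) :
    starK r (Function.update a (i, true) S) =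
      cY a i * ((a (i, false)).F * S.F) +
        cX a i * ((a (i, false)).R * S.F + (a (i, false)).F * S.L) := by
  rw [starK_split _ i, cY_up, cX_up]
  have h1 : (Function.update a (i, true) S) (i, true) = S := Function.update_self _ _ _
  have h2 : (Function.update a (i, true) S) (i, false) = a (i, false) :=
    Function.update_of_ne (by simp) _ _
  rw [cA, cB, h1, h2, mulF]

theorem aff (r : ℕ) : Affine (starK r) := by
  rintro a ⟨i, s⟩ S
  have h := S.rel
  cases s
  · rw [starK_false, starK_false, starK_false, U0F, U0R, U1F, U1R]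
    ring
  · rw [starK_true, starK_true, starK_true, U0F, U0L, U1F, U1L]
    linear_combination (-(cX a i * (a (i, false)).F)) * h

theorem slot_false {r : ℕ} (a : Fin r × Bool → Tg) (i : Fin r) :
    slot (starK r) a (i, false) = bes (cY a i) (cX a i) (a (i, true)) := by
  have h := (a (i, true)).rel
  apply Tg.ext
  · simp only [slot, bes]
    rw [starK_false, starK_false, U0F, U0R, U1F, U1R]
    ring
  · simp only [slot, bes]
    rw [starK_false, starK_false, U0F, U0R, U1F, U1R]
    linear_combination (-(cX a i)) * h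
  · simp only [slot, bes]
    rw [starK_false, U0F, U0R]
    ring

theorem slot_true {r : ℕ} (a : Fin r × Bool → Tg) (i : Fin r) :
    slot (starK r) a (i, true) = bes (cY a i) (cX a i) (a (i, false)) := by
  have h := (a (i, false)).rel
  apply Tg.ext
  · simp only [slot, bes]
    rw [starK_true, starK_true, U0F, U0L, U1F, U1L]
    linear_combination (cX a i) * h
  · simp only [slot, bes]
    rw [starK_true, starK_true, U0F, U0L, U1F, U1L]
    ring
  · simp only [slot, bes]
    rw [starK_true, U0F, U0L]
    ring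

theorem nn_prod {J : Type} (s : Finset J) (f : J → ℝ[T;T⁻¹]) (h : ∀ j ∈ s, NN (f j)) :
    NN (∏ j ∈ s, f j) := by
  classical
  induction s using Finset.induction_on with
  | empty => simpa using nn_one
  | insert a s ha ih =>
    rw [Finset.prod_insert ha]
    exact nn_mul (h _ (Finset.mem_insert_self _ _))
      (ih fun j hj => h j (Finset.mem_insert_of_mem hj))

theorem nn_sum {J : Type} (s : Finset J) (f : J → ℝ[T;T⁻¹]) (h : ∀ j ∈ s, NN (f j)) :
    NN (∑ j ∈ s, f j) := by
  classical
  induction s using Finset.induction_on with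
  | empty => simpa using nn_zero
  | insert a s ha ih =>
    rw [Finset.sum_insert ha]
    exact nn_add (h _ (Finset.mem_insert_self _ _))
      (ih fun j hj => h j (Finset.mem_insert_of_mem hj))

theorem nn_cA {r : ℕ} (a : Fin r × Bool → Tg) (h : ∀ l, (a l).Nonneg) (j : Fin r) :
    NN (cA a j) := (mul_nonneg' (h (j, false)) (h (j, true))).F

theorem nn_cB {r : ℕ} (a : Fin r × Bool → Tg) (h : ∀ l, (a l).Nonneg) (j : Fin r) :
    NN (cB a j) := nn_mul (h (j, false)).F (h (j, true)).F

theorem snn (r : ℕ) : SlotNonneg (starK r) := by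
  rintro a ⟨i, s⟩ h
  have h1 : NN (cY a i) := nn_prod _ _ fun j _ => nn_cA a h j
  have h2 : NN (cX a i) := nn_sum _ _ fun l _ =>
    nn_mul (nn_cB a h l) (nn_prod _ _ fun j _ => nn_cA a h j)
  cases s
  · rw [slot_false]
    exact bes_nonneg h1 h2 (h _)
  · rw [slot_true]
    exact bes_nonneg h1 h2 (h _)

theorem erase_last (r : ℕ) : (univ : Finset (Fin (r + 1))).erase (Fin.last r) =
    univ.map Fin.castSuccEmb := by
  ext j
  simp only [mem_erase, mem_univ, and_true, mem_map, true_and, Fin.coe_castSuccEmb]
  constructor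
  · intro h
    exact ⟨j.castPred h, Fin.castSucc_castPred j h⟩
  · rintro ⟨i, rfl⟩
    exact (Fin.castSucc_lt_last i).ne

theorem goalStarAff : GoalStarAff := by
  intro _ r
  refine ⟨aff r, snn r, fun a => ?_⟩
  rw [slot_true]
  have h1 : cY a (Fin.last r) =
      ∏ i : Fin r, ((a (i.castSucc, false)).mul (a (i.castSucc, true))).F := by
    rw [cY, erase_last, Finset.prod_map]
    rfl
  have h2 : cX a (Fin.last r) =
      ∑ i : Fin r, (a (i.castSucc, false)).F * (a (i.castSucc, true)).F *
          ∏ j ∈ univ.erase i, ((a (j.castSucc, false)).mul (a (j.castSucc, true))).F := by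
    rw [cX, erase_last, Finset.sum_map]
    refine Finset.sum_congr rfl fun i _ => ?_
    have h3 : ((univ : Finset (Fin (r + 1))).erase (Fin.castSuccEmb i)).erase (Fin.last r) =
        (univ.erase i).map Fin.castSuccEmb := by
      rw [Finset.erase_right_comm, erase_last, Finset.map_erase]
    rw [h3, Finset.prod_map]
    rfl
  rw [h1, h2]

end Pool.Agent.Helper56.SK
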